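import Pool.Agent.H31.SX.TargetsR

/-! Board swx_modules, row RB. -/

set_option autoImplicit false

open Finset Polynomial

namespace Pool.Agent.H60.SWX

open Pool.Agent.H31.SX

/-- the truncated generating function of the Catalan numbers -/
private noncomputable def cat (M : ℕ) : ℤ[X] := ∑ j ∈ range M, C (catalan j : ℤ) * X ^ j

private theorem cat_coeff (M n : ℕ) (h : n < M) : (cat M).coeff n = catalan n := by
  unfold cat
  rw [finsetSum_coeff]
  simp only [coeff_C_mul, coeff_X_pow]
  rw [Finset.sum_eq_single n]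
  · simp
  · intro b _ hb
    rw [if_neg (fun h => hb h.symm), mul_zero]
  · intro hn
    exact absurd (mem_range.2 h) hn

private theorem cat_dvd (M : ℕ) : (X : ℤ[X]) ^ M ∣ cat M - 1 - X * (cat M) ^ 2 := by
  rw [X_pow_dvd_iff]
  intro d hd
  rw [coeff_sub, coeff_sub, cat_coeff M d hd]
  cases d with
  | zero => simp [coeff_one]
  | succ k =>
    rw [coeff_X_mul, sq, coeff_mul, coeff_one, if_neg (Nat.succ_ne_zero k), sub_zero, catalan_succ']
    push_cast
    rw [sub_eq_zero]
    refine Finset.sum_congr rfl fun p hp => ?_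
    rw [Finset.HasAntidiagonal.mem_antidiagonal] at hp
    rw [cat_coeff M p.1 (by omega), cat_coeff M p.2 (by omega)]

private theorem cat_eval {R : Type} [CommRing R] (M : ℕ) (y : R) (hy : y ^ M = 0) :
    (∑ j ∈ range M, (catalan j : R) * y ^ j) =
      1 + y * (∑ j ∈ range M, (catalan j : R) * y ^ j) ^ 2 := by
  obtain ⟨Q, hQ⟩ := cat_dvd M
  have h1 := congrArg (fun P => aeval y P) hQ
  simp only [map_sub, map_mul, map_pow, aeval_X, map_one, hy, zero_mul] at h1
  have h2 : aeval y (cat M) = ∑ j ∈ range M, (catalan j : R) * y ^ j := by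
    unfold cat
    rw [map_sum]
    refine Finset.sum_congr rfl fun j _ => ?_
    rw [map_mul, map_pow, aeval_X, aeval_C]
    simp
  rw [h2] at h1
  linear_combination h1

private theorem catalan_four' : catalan 4 = 14 := by
  rw [catalan_eq_centralBinom_div]
  simp [Nat.centralBinom, Nat.choose]

theorem pf_RB : X_RB := by
  intro R _ I N hI s₀ q₀ h hq hs
  refine ⟨fun k => match k with
    | 0 => q₀
    | j + 1 => 2 * q₀ * (-1) ^ j * (catalan j : R) * h ^ (j + 1), rfl, ?_, ?_⟩
  · show 2 * q₀ * (-1) ^ 4 * (catalan 4 : R) * h ^ (4 + 1) = 28 * q₀ * h ^ 5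
    rw [catalan_four']
    push_cast
    ring
  · intro τ hτ
    have hx : (-(h * τ)) ∈ I := I.neg_mem (I.mul_mem_left h hτ)
    have hxN : (-(h * τ)) ^ (N + 5) = 0 := by
      have h1 : (-(h * τ)) ^ N ∈ I ^ N := Ideal.pow_mem_pow hx N
      rw [hI, Submodule.mem_bot] at h1
      rw [pow_add, h1, zero_mul]
    have hu := cat_eval (N + 5) (-(h * τ)) hxN
    set u : R := ∑ j ∈ range (N + 5), (catalan j : R) * (-(h * τ)) ^ j with hudef
    have hsum : (∑ k ∈ range (N + 6), (match k with
        | 0 => q₀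
        | j + 1 => 2 * q₀ * (-1) ^ j * (catalan j : R) * h ^ (j + 1)) * τ ^ k) =
        q₀ * (1 + 2 * (h * τ) * u) := by
      rw [show N + 6 = (N + 5) + 1 from rfl, Finset.sum_range_succ']
      simp only [pow_zero, mul_one]
      rw [hudef, mul_add, mul_one, add_comm, Finset.mul_sum, Finset.mul_sum]
      congr 1
      refine Finset.sum_congr rfl fun j _ => ?_
      rw [neg_pow (h * τ) j, mul_pow h τ j, pow_succ h j, pow_succ τ j]
      ring
    rw [hsum]
    linear_combination (1 + 2 * (h * τ) * u) ^ 2 * hq + (4 * s₀ * (h * τ)) * hu + τ * hs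

end Pool.Agent.H60.SWX
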