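import Pool.Agent.H31.SX.TargetsR

/-! Board swx_modules, row RC. -/

set_option autoImplicit false

open Finset Polynomial

namespace Pool.Agent.H60.SWX

open Pool.Agent.H31.SX

private theorem step {R : Type} [CommRing R] (I : Ideal R) (f : R[X]) (b : R) (hb : b ∈ I) :
    ∃ g : R[X], (∀ x : R, f.eval (x + b) - f.eval x = b * g.eval x) ∧
      ∀ n, (g - derivative f).coeff n ∈ I := by
  obtain ⟨k, hk⟩ := binomExpansion (f.map C) (X : R[X]) (C b)
  refine ⟨derivative f + k * C b, ?_, ?_⟩
  · intro x
    have h1 := congrArg (fun P => P.eval x) hk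
    have e1 : ∀ q : R[X], ((f.map C).eval q).eval x = f.eval (q.eval x) := by
      intro q
      rw [eval_map]
      exact eval_comp
    have e2 : ((derivative (f.map C)).eval (X : R[X])).eval x = (derivative f).eval x := by
      rw [derivative_map, eval_map]
      show ((derivative f).comp X).eval x = _
      rw [comp_X]
    simp only [eval_add, eval_mul, eval_pow, e1, e2, eval_C, eval_X] at h1
    rw [h1]
    simp only [eval_add, eval_mul, eval_C]
    ring
  · intro n
    rw [add_sub_cancel_left, coeff_mul_C]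
    exact I.mul_mem_left _ hb

private theorem coeff_deriv_mem {R : Type} [CommRing R] (I : Ideal R) (f g : R[X])
    (h : ∀ n, (f - g).coeff n ∈ I) : ∀ n, (derivative f - derivative g).coeff n ∈ I := by
  intro n
  rw [← derivative_sub, coeff_derivative]
  exact I.mul_mem_right _ (h (n + 1))

private theorem trans_mem {R : Type} [CommRing R] (I : Ideal R) (f g k : R[X])
    (h : ∀ n, (f - g).coeff n ∈ I) (h' : ∀ n, (g - k).coeff n ∈ I) :
    ∀ n, (f - k).coeff n ∈ I := by
  intro n
  have : f - k = (f - g) + (g - k) := by ring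
  rw [this, coeff_add]
  exact I.add_mem (h n) (h' n)

theorem pf_RC : X_RC := by
  intro R _ I N c b₁ hb₁ b₂ hb₂ b₃ hb₃ b₄ hb₄
  set f : R[X] := ∑ k ∈ range (N + 6), C (c k) * X ^ k with hf
  have hfe : ∀ x : R, (∑ k ∈ range (N + 6), c k * x ^ k) = f.eval x := by
    intro x
    rw [hf, eval_finsetSum]
    simp
  obtain ⟨g₁, h₁, m₁⟩ := step I f b₁ hb₁
  obtain ⟨g₂, h₂, m₂⟩ := step I g₁ b₂ hb₂
  obtain ⟨g₃, h₃, m₃⟩ := step I g₂ b₃ hb₃
  obtain ⟨g₄, h₄, m₄⟩ := step I g₃ b₄ hb₄
  refine ⟨fun x => g₄.eval x, ?_, ?_⟩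
  · intro τ _
    simp only [dl, hfe]
    have e1 : ∀ x, f.eval (x + b₁) - f.eval x = b₁ * g₁.eval x := h₁
    simp only [e1]
    have e2 : ∀ x, b₁ * g₁.eval (x + b₂) - b₁ * g₁.eval x = b₁ * b₂ * g₂.eval x := by
      intro x
      rw [← mul_sub, h₂ x]
      ring
    simp only [e2]
    have e3 : ∀ x, b₁ * b₂ * g₂.eval (x + b₃) - b₁ * b₂ * g₂.eval x =
        b₁ * b₂ * b₃ * g₃.eval x := by
      intro x
      rw [← mul_sub, h₃ x]
      ring
    simp only [e3]
    rw [← mul_sub, h₄ τ]
    ring
  · intro τ hτ s hs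
    obtain ⟨k, hk⟩ := binomExpansion g₄ τ s
    refine ⟨(derivative g₄).eval τ + k * s, ?_, ?_⟩
    · show g₄.eval (τ + s) - g₄.eval τ = _
      rw [hk]
      ring
    · have d1 := coeff_deriv_mem I _ _ m₁
      have d2 := trans_mem I _ _ _ m₂ d1
      have d3 := trans_mem I _ _ _ m₃ (coeff_deriv_mem I _ _ d2)
      have d4 := trans_mem I _ _ _ m₄ (coeff_deriv_mem I _ _ d3)
      have d5 := coeff_deriv_mem I _ _ d4 0
      have hc : (derivative (derivative (derivative (derivative (derivative f))))).coeff 0 =
          120 * c 5 := by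
        simp only [coeff_derivative]
        have h5 : f.coeff (0 + 1 + 1 + 1 + 1 + 1) = c 5 := by
          rw [hf, finsetSum_coeff]
          simp only [coeff_C_mul, coeff_X_pow]
          rw [Finset.sum_eq_single 5]
          · simp
          · intro b _ hb
            rw [if_neg (fun h => hb (by omega)), mul_zero]
          · intro hn
            exact absurd (mem_range.2 (by omega)) hn
        rw [h5]
        push_cast
        ring
      rw [coeff_sub, hc] at d5
      have h6 : (derivative g₄).eval τ - (derivative g₄).coeff 0 ∈ I := by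
        have h7 := congrArg (fun P => P.eval τ) (divX_mul_X_add (derivative g₄))
        simp only [eval_add, eval_mul, eval_X, eval_C] at h7
        rw [← h7]
        rw [add_sub_cancel_right]
        exact I.mul_mem_left _ hτ
      have h8 : (derivative g₄).eval τ + k * s - 120 * c 5 =
          ((derivative g₄).eval τ - (derivative g₄).coeff 0) +
            ((derivative g₄).coeff 0 - 120 * c 5) + k * s := by ring
      rw [h8]
      exact I.add_mem (I.add_mem h6 d5) (I.mul_mem_left _ hs)

end Pool.Agent.H60.SWX
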